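import Pool.Agent.N206.CG.Stm2

/-!
Project CG (helper206), tasks AI2 and GROW (helper402).
-/

set_option autoImplicit false

namespace Pool.Agent.N402.CG

open Filter Topology
open Pool.Agent.N206.CG

theorem q_eq {G : Type} [Group G] (H : Subgroup G) {a b a' b' : G} :
    (QuotientGroup.mk (a, b) : (G × G) ⧸ (H.prod H)) = QuotientGroup.mk (a', b') ↔
      (QuotientGroup.mk a : G ⧸ H) = QuotientGroup.mk a' ∧
      (QuotientGroup.mk b : G ⧸ H) = QuotientGroup.mk b' := by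
  rw [QuotientGroup.eq, QuotientGroup.eq, QuotientGroup.eq, Subgroup.mem_prod]
  rfl

theorem main {G C : Type} [Group G] (H : Subgroup G) (hG : Group.FG G) (hinf : Infinite (G ⧸ H))
    (f : (G × G) ⧸ (H.prod H) → C) (hf : ∀ g : G × G, {z | f (g • z) ≠ f z}.Finite) :
    ∃ c, {z | f z ≠ c}.Finite := by
  classical
  obtain ⟨T, hT⟩ := hG.out
  obtain ⟨Bad, hBad⟩ : ∃ Bad : Set ((G × G) ⧸ (H.prod H)), Bad = ⋃ t ∈ T,
    ({z | f (((t, 1) : G × G) • z) ≠ f z} ∪ {z | f (((1, t) : G × G) • z) ≠ f z}) := ⟨_, rfl⟩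
  have hBf : Bad.Finite := by
    rw [hBad]
    exact T.finite_toSet.biUnion fun t _ => (hf (t, 1)).union (hf (1, t))
  obtain ⟨B1, hB1⟩ : ∃ B1 : Set (G ⧸ H), B1 = {y | ∃ a b : G, QuotientGroup.mk a = y ∧
    (QuotientGroup.mk (a, b) : (G × G) ⧸ (H.prod H)) ∈ Bad} := ⟨_, rfl⟩
  obtain ⟨B2, hB2⟩ : ∃ B2 : Set (G ⧸ H), B2 = {y | ∃ a b : G, QuotientGroup.mk b = y ∧
    (QuotientGroup.mk (a, b) : (G × G) ⧸ (H.prod H)) ∈ Bad} := ⟨_, rfl⟩
  have hout : ∀ z : (G × G) ⧸ (H.prod H), (QuotientGroup.mk (z.out.1, z.out.2) : (G × G) ⧸ (H.prod H)) = z :=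
    fun z => QuotientGroup.out_eq' z
  have hB1f : B1.Finite := by
    refine (hBf.image fun z => (QuotientGroup.mk z.out.1 : G ⧸ H)).subset ?_
    rw [hB1]
    rintro y ⟨a, b, rfl, h⟩
    refine ⟨_, h, ?_⟩
    exact ((q_eq H).1 (hout (QuotientGroup.mk (a, b)))).1
  have hB2f : B2.Finite := by
    refine (hBf.image fun z => (QuotientGroup.mk z.out.2 : G ⧸ H)).subset ?_
    rw [hB2]
    rintro y ⟨a, b, rfl, h⟩
    refine ⟨_, h, ?_⟩
    exact ((q_eq H).1 (hout (QuotientGroup.mk (a, b)))).2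
  have hmem : ∀ g : G, g ∈ Subgroup.closure (T : Set G) := fun g => by rw [hT]; trivial
  -- constant in the second variable
  have k1 : ∀ a : G, (QuotientGroup.mk a : G ⧸ H) ∉ B1 → ∀ g b : G,
      f (QuotientGroup.mk (a, g * b)) = f (QuotientGroup.mk (a, b)) := by
    intro a ha g
    induction hmem g using Subgroup.closure_induction with
    | mem t ht =>
      intro b
      by_contra hcon
      apply ha
      rw [hB1]
      refine ⟨a, b, rfl, ?_⟩
      rw [hBad]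
      refine Set.mem_biUnion ht (Or.inr ?_)
      rw [Set.mem_ofPred_eq, MulAction.Quotient.smul_mk]
      simpa using hcon
    | one => intro b; rw [one_mul]
    | mul g h _ _ ihg ihh => intro b; rw [mul_assoc, ihg, ihh]
    | inv g _ ih => intro b; rw [← ih (g⁻¹ * b), mul_inv_cancel_left]
  have k2 : ∀ b : G, (QuotientGroup.mk b : G ⧸ H) ∉ B2 → ∀ g a : G,
      f (QuotientGroup.mk (g * a, b)) = f (QuotientGroup.mk (a, b)) := by
    intro b hb g
    induction hmem g using Subgroup.closure_induction with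
    | mem t ht =>
      intro a
      by_contra hcon
      apply hb
      rw [hB2]
      refine ⟨a, b, rfl, ?_⟩
      rw [hBad]
      refine Set.mem_biUnion ht (Or.inl ?_)
      rw [Set.mem_ofPred_eq, MulAction.Quotient.smul_mk]
      simpa using hcon
    | one => intro a; rw [one_mul]
    | mul g h _ _ ihg ihh => intro a; rw [mul_assoc, ihg, ihh]
    | inv g _ ih => intro a; rw [← ih (g⁻¹ * a), mul_inv_cancel_left]
  have k1' : ∀ a : G, (QuotientGroup.mk a : G ⧸ H) ∉ B1 → ∀ b b' : G,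
      f (QuotientGroup.mk (a, b)) = f (QuotientGroup.mk (a, b')) := by
    intro a ha b b'
    have := k1 a ha (b * b'⁻¹) b'
    rwa [inv_mul_cancel_right] at this
  have k2' : ∀ b : G, (QuotientGroup.mk b : G ⧸ H) ∉ B2 → ∀ a a' : G,
      f (QuotientGroup.mk (a, b)) = f (QuotientGroup.mk (a', b)) := by
    intro b hb a a'
    have := k2 b hb (a * a'⁻¹) a'
    rwa [inv_mul_cancel_right] at this
  obtain ⟨y0, hy0⟩ := hB1f.exists_notMem
  obtain ⟨a0, rfl⟩ := QuotientGroup.mk_surjective y0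
  obtain ⟨y1, hy1⟩ := hB2f.exists_notMem
  obtain ⟨b0, rfl⟩ := QuotientGroup.mk_surjective y1
  refine ⟨f (QuotientGroup.mk (a0, b0)), ?_⟩
  refine ((hB1f.prod hB2f).image fun y : (G ⧸ H) × (G ⧸ H) =>
    (QuotientGroup.mk (y.1.out, y.2.out) : (G × G) ⧸ (H.prod H))).subset ?_
  intro z hz
  obtain ⟨⟨a, b⟩, rfl⟩ := QuotientGroup.mk_surjective z
  rw [Set.mem_ofPred_eq] at hz
  have ha : (QuotientGroup.mk a : G ⧸ H) ∈ B1 := by
    by_contra h
    exact hz ((k1' a h b b0).trans (k2' b0 hy1 a a0))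
  have hb : (QuotientGroup.mk b : G ⧸ H) ∈ B2 := by
    by_contra h
    exact hz ((k2' b h a a0).trans (k1' a0 hy0 b b0))
  refine ⟨(QuotientGroup.mk a, QuotientGroup.mk b), ⟨ha, hb⟩, ?_⟩
  exact (q_eq H).2 ⟨QuotientGroup.out_eq' _, QuotientGroup.out_eq' _⟩

theorem t_AI2 : S_AI2 := fun G _ H hG hinf f hf => main H hG hinf f hf

theorem big (s : ℝ) : ∃ K : ℕ, ∀ k : ℕ, K ≤ k → (4 * ((k : ℝ) + 1)) ^ s < 2 ^ (k + 1) / 4 := by
  have h1 := tendsto_rpow_mul_exp_neg_mul_atTop_nhds_zero s (Real.log 2 / 4)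
    (by have := Real.log_pos (by norm_num : (1 : ℝ) < 2); positivity)
  have h2 : Tendsto (fun k : ℕ => 4 * ((k : ℝ) + 1)) atTop atTop :=
    Tendsto.const_mul_atTop (by norm_num) (tendsto_atTop_add_const_right _ _ tendsto_natCast_atTop_atTop)
  have h3 := (h1.comp h2).eventually_lt_const (by norm_num : (0 : ℝ) < 1 / 4)
  obtain ⟨K, hK⟩ := eventually_atTop.1 h3
  refine ⟨K, fun k hk => ?_⟩
  have h4 := hK k hk
  simp only [Function.comp_apply] at h4
  have h5 : Real.exp (-(Real.log 2 / 4) * (4 * ((k : ℝ) + 1))) = (2 ^ (k + 1))⁻¹ := by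
    rw [show -(Real.log 2 / 4) * (4 * ((k : ℝ) + 1)) = -(((k + 1 : ℕ) : ℝ) * Real.log 2) by
      push_cast; ring, Real.exp_neg, Real.exp_nat_mul, Real.exp_log (by norm_num)]
  rw [h5, mul_inv_lt_iff₀ (by positivity)] at h4
  linarith

theorem t_GROW : S_GROW := by
  intro c N I hI hI0 hN hc
  rintro ⟨f, hf, ⟨a, b, ha, hb, -, hinf⟩, ⟨a', b', ha', hb', hN2, -⟩⟩
  obtain ⟨K, hK⟩ := big (2 * (a' / b))
  obtain ⟨n, hn, hnI⟩ := hinf.exists_gt (I (K + 1))
  rw [Set.mem_ofPred_eq] at hn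
  have hex : ∃ j, n < I j := ⟨n + 1, lt_of_lt_of_le (Nat.lt_succ_self n) hI.le_apply⟩
  obtain ⟨j, hj, hjmin⟩ : ∃ j, n < I j ∧ ∀ i < j, I i ≤ n :=
    ⟨Nat.find hex, Nat.find_spec hex, fun i hi => not_lt.1 (Nat.find_min hex hi)⟩
  have hjK : K + 1 < j := by
    by_contra h
    have := hI.monotone (not_lt.1 h)
    omega
  obtain ⟨k, rfl⟩ : ∃ k, j = k + 2 := ⟨j - 2, by omega⟩
  have h1 : 2 ^ k ≤ N n := hN k n (hjmin (k + 1) (by omega))
  have h2 : c n ≤ (4 * (k + 1 + 1)) ^ 2 := hc (k + 1) n hj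
  have h3 := hN2 n (by omega)
  have h4 : f n ^ a' = (f n ^ b) ^ (a' / b) := by
    rw [← Real.rpow_mul (hf n)]
    congr 1
    field_simp
  have h5 : (f n ^ b) ^ (a' / b) ≤ ((4 * (((k + 1 : ℕ) : ℝ) + 1)) ^ 2) ^ (a' / b) := by
    refine Real.rpow_le_rpow (Real.rpow_nonneg (hf n) _) (hn.trans ?_) (by positivity)
    exact_mod_cast h2
  have h6 : ((4 * (((k + 1 : ℕ) : ℝ) + 1)) ^ 2) ^ (a' / b) = (4 * (((k + 1 : ℕ) : ℝ) + 1)) ^ (2 * (a' / b)) := by
    rw [Real.rpow_mul (by positivity), Real.rpow_two]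
  have h7 := hK (k + 1) (by omega)
  have h8 : ((2 : ℝ) ^ k) ≤ N n := by exact_mod_cast h1
  have h9 : (2 : ℝ) ^ (k + 1 + 1) / 4 = 2 ^ k := by
    rw [pow_succ, pow_succ]
    ring
  rw [h9] at h7
  rw [h4] at h3
  rw [h6] at h5
  linarith

end Pool.Agent.N402.CG
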